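import Pool.Agent.P8H98.FM.Stm2

/-!
Project FM (helper98), packages LIP, LIP2, TRC: basic facts (helper85).
-/

set_option autoImplicit false

open MeasureTheory Complex Filter Topology
open scoped ENNReal NNReal ComplexConjugate

namespace Pool.Agent.P8H85.FM

open Pool.Agent.P8H98.FM

noncomputable section

/-! ### Bounded measurable functions -/

/-- bounded and measurable -/
def BM {α : Type*} [MeasurableSpace α] (f : α → ℂ) : Prop := Measurable f ∧ ∃ C : ℝ, ∀ v, ‖f v‖ ≤ C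

section
variable {α : Type*} [MeasurableSpace α] {f g : α → ℂ}

lemma BM.add (hf : BM f) (hg : BM g) : BM (fun v => f v + g v) := by
  obtain ⟨h1, C, h2⟩ := hf
  obtain ⟨h3, D, h4⟩ := hg
  exact ⟨h1.add h3, C + D, fun v => (norm_add_le _ _).trans (add_le_add (h2 v) (h4 v))⟩

lemma BM.sub (hf : BM f) (hg : BM g) : BM (fun v => f v - g v) := by
  obtain ⟨h1, C, h2⟩ := hf
  obtain ⟨h3, D, h4⟩ := hg
  exact ⟨h1.sub h3, C + D, fun v => (norm_sub_le _ _).trans (add_le_add (h2 v) (h4 v))⟩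

lemma BM.mul (hf : BM f) (hg : BM g) : BM (fun v => f v * g v) := by
  obtain ⟨h1, C, h2⟩ := hf
  obtain ⟨h3, D, h4⟩ := hg
  refine ⟨h1.mul h3, C * D, fun v => ?_⟩
  rw [norm_mul]
  exact mul_le_mul (h2 v) (h4 v) (norm_nonneg _) ((norm_nonneg _).trans (h2 v))

lemma BM.conj (hf : BM f) : BM (fun v => conj (f v)) := by
  obtain ⟨h1, C, h2⟩ := hf
  refine ⟨(Complex.continuous_conj.measurable).comp h1, C, fun v => ?_⟩
  rw [Complex.norm_conj]; exact h2 v

lemma BM.const (c : ℂ) : BM (fun _ : α => c) := ⟨measurable_const, ‖c‖, fun _ => le_rfl⟩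

lemma BM.sum {ι : Type*} (s : Finset ι) {F : ι → α → ℂ} (h : ∀ i ∈ s, BM (F i)) :
    BM (fun v => ∑ i ∈ s, F i v) := by
  classical
  induction s using Finset.induction_on with
  | empty => simpa using (BM.const (0 : ℂ) : BM (fun _ : α => (0 : ℂ)))
  | insert a s ha ih =>
    have h1 := (h a (Finset.mem_insert_self _ _)).add (ih fun i hi => h i (Finset.mem_insert_of_mem hi))
    have e : (fun v => ∑ i ∈ insert a s, F i v) = fun v => F a v + ∑ i ∈ s, F i v := by
      funext v; rw [Finset.sum_insert ha]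
    rw [e]; exact h1

lemma BM.comp {β : Type*} [MeasurableSpace β] (hf : BM f) {u : β → α} (hu : Measurable u) :
    BM (fun v => f (u v)) := ⟨hf.1.comp hu, hf.2.choose, fun v => hf.2.choose_spec (u v)⟩

lemma BM.int (hf : BM f) (μ : Measure α) [IsFiniteMeasure μ] : Integrable f μ :=
  Integrable.of_bound hf.1.aestronglyMeasurable hf.2.choose (ae_of_all _ hf.2.choose_spec)

lemma BM.sq_int (hf : BM f) (μ : Measure α) [IsFiniteMeasure μ] : Integrable (fun v => ‖f v‖ ^ 2) μ := by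
  obtain ⟨h1, C, h2⟩ := hf
  refine Integrable.of_bound (h1.norm.pow_const 2).aestronglyMeasurable (C ^ 2) (ae_of_all _ fun v => ?_)
  rw [Real.norm_eq_abs, abs_of_nonneg (by positivity)]
  exact pow_le_pow_left₀ (norm_nonneg _) (h2 v) 2

lemma int_mul_conj (f : α → ℂ) (μ : Measure α) :
    ∫ v, f v * conj (f v) ∂μ = ((∫ v, ‖f v‖ ^ 2 ∂μ : ℝ) : ℂ) := by
  rw [← integral_complex_ofReal]
  refine integral_congr_ae (ae_of_all _ fun v => ?_)
  simp only [Complex.mul_conj']
  push_cast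
  rfl

end

/-! ### Finite sums -/

lemma ns_nonneg {n : ℕ} (x : Fin n → ℂ) : 0 ≤ ns x := Finset.sum_nonneg fun i _ => sq_nonneg _

lemma ns_coe {n : ℕ} (x : Fin n → ℂ) : ((ns x : ℝ) : ℂ) = ∑ i, x i * conj (x i) := by
  unfold ns
  push_cast
  exact Finset.sum_congr rfl fun i _ => (Complex.mul_conj' _).symm

lemma ns_conj {n : ℕ} (x : Fin n → ℂ) : ns (fun i => conj (x i)) = ns x := by
  unfold ns; simp only [Complex.norm_conj]

lemma ns_zero {n : ℕ} {x : Fin n → ℂ} (h : ns x = 0) : x = 0 := by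
  funext i
  have h1 := (Finset.sum_eq_zero_iff_of_nonneg (fun i _ => sq_nonneg ‖x i‖)).1 h i (Finset.mem_univ _)
  simpa using h1

lemma cs_sum {n : ℕ} (x y : Fin n → ℂ) : ‖∑ i, x i * y i‖ ^ 2 ≤ ns x * ns y := by
  have h1 : ‖∑ i, x i * y i‖ ≤ ∑ i, ‖x i‖ * ‖y i‖ := by
    refine (norm_sum_le _ _).trans (Finset.sum_le_sum fun i _ => ?_)
    rw [norm_mul]
  calc _ ≤ (∑ i, ‖x i‖ * ‖y i‖) ^ 2 := pow_le_pow_left₀ (norm_nonneg _) h1 2
    _ ≤ _ := Finset.sum_mul_sq_le_sq_mul_sq _ _ _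

lemma ns_add_le {n : ℕ} (x y : Fin n → ℂ) : ns (fun i => x i + y i) ≤ 2 * ns x + 2 * ns y := by
  unfold ns
  rw [Finset.mul_sum, Finset.mul_sum, ← Finset.sum_add_distrib]
  refine Finset.sum_le_sum fun i _ => ?_
  have h1 := norm_add_le (x i) (y i)
  nlinarith [sq_nonneg (‖x i‖ - ‖y i‖), norm_nonneg (x i), norm_nonneg (y i), norm_nonneg (x i + y i)]

lemma norm_le_ns {n : ℕ} (x : Fin n → ℂ) (i : Fin n) : ‖x i‖ ^ 2 ≤ ns x :=
  Finset.single_le_sum (f := fun i => ‖x i‖ ^ 2) (fun i _ => sq_nonneg _) (Finset.mem_univ i)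

/-- vectors which are integrals of bounded vectors -/
lemma ns_int_le {n : ℕ} (γ : Om → Fin n → ℂ) (hγ : ∀ i, BM fun v => γ v i) (g : Om → ℂ) (hg : BM g)
    (Γ : ℝ) (hΓ : 0 ≤ Γ) (h : ∀ᵐ v ∂sg, ns (γ v) ≤ Γ ^ 2) :
    ns (fun i => ∫ v, g v * γ v i ∂sg) ≤ (Γ * ∫ v, ‖g v‖ ∂sg) ^ 2 := by
  obtain ⟨c, hc⟩ : ∃ c : Fin n → ℂ, c = fun i => ∫ v, g v * γ v i ∂sg := ⟨_, rfl⟩
  rw [← hc]
  have hG : 0 ≤ ∫ v, ‖g v‖ ∂sg := integral_nonneg fun v => norm_nonneg _
  have h1 : ((ns c : ℝ) : ℂ) = ∫ v, g v * ∑ i, conj (c i) * γ v i ∂sg := by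
    rw [ns_coe]
    have h2 : ∀ v, g v * ∑ i, conj (c i) * γ v i = ∑ i, conj (c i) * (g v * γ v i) := by
      intro v
      rw [Finset.mul_sum]
      exact Finset.sum_congr rfl fun i _ => by ring
    simp_rw [h2]
    rw [integral_finsetSum _ fun i _ => ((hg.mul (hγ i)).int sg).const_mul _]
    refine Finset.sum_congr rfl fun i _ => ?_
    rw [integral_const_mul, mul_comm]
    congr 1
    rw [hc]
  have h3 : ns c ≤ √(ns c) * (Γ * ∫ v, ‖g v‖ ∂sg) := by
    have h4 : ns c = ‖∫ v, g v * ∑ i, conj (c i) * γ v i ∂sg‖ := by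
      rw [← h1, Complex.norm_real, Real.norm_eq_abs, abs_of_nonneg (ns_nonneg c)]
    calc ns c = ‖∫ v, g v * ∑ i, conj (c i) * γ v i ∂sg‖ := h4
      _ ≤ ∫ v, ‖g v‖ * (√(ns c) * Γ) ∂sg := by
          refine norm_integral_le_of_norm_le ((hg.int sg).norm.mul_const _) ?_
          filter_upwards [h] with v hv
          rw [norm_mul]
          refine mul_le_mul_of_nonneg_left ?_ (norm_nonneg _)
          have h5 := cs_sum (fun i => conj (c i)) (γ v)
          rw [ns_conj] at h5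
          refine (sq_le_sq₀ (norm_nonneg _) (by positivity)).1 ?_
          rw [mul_pow, Real.sq_sqrt (ns_nonneg c)]
          exact h5.trans (mul_le_mul_of_nonneg_left hv (ns_nonneg c))
      _ = _ := by rw [integral_mul_const]; ring
  by_cases h0 : ns c = 0
  · rw [h0]; positivity
  · have h6 : 0 < ns c := lt_of_le_of_ne (ns_nonneg c) (Ne.symm h0)
    have h7 : 0 < √(ns c) := Real.sqrt_pos.2 h6
    have h8 : √(ns c) ≤ Γ * ∫ v, ‖g v‖ ∂sg := by
      have h9 := Real.mul_self_sqrt h6.le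
      by_contra hcon
      push Not at hcon
      nlinarith
    calc ns c = √(ns c) ^ 2 := (Real.sq_sqrt h6.le).symm
      _ ≤ _ := pow_le_pow_left₀ h7.le h8 2

/-- Bessel's inequality -/
lemma bessel {n : ℕ} (e : Om → Fin n → ℂ) (he : ∀ i, BM fun v => e v i)
    (ho : ∀ i j, ∫ v, e v i * conj (e v j) ∂sg = if i = j then 1 else 0) (g : Om → ℂ) (hg : BM g) :
    ns (fun i => ∫ v, g v * e v i ∂sg) ≤ ∫ v, ‖g v‖ ^ 2 ∂sg := by
  obtain ⟨c, hc⟩ : ∃ c : Fin n → ℂ, c = fun i => ∫ v, g v * e v i ∂sg := ⟨_, rfl⟩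
  rw [← hc]
  obtain ⟨P, hP⟩ : ∃ P : Om → ℂ, P = fun v => ∑ i, c i * conj (e v i) := ⟨_, rfl⟩
  have hPb : BM P := by
    rw [hP]; exact BM.sum _ fun i _ => (BM.const (c i)).mul (he i).conj
  have hPc : ∀ v, conj (P v) = ∑ i, conj (c i) * e v i := by
    intro v; rw [hP]; simp [map_sum, map_mul]
  have h1 : ∫ v, g v * conj (P v) ∂sg = ((ns c : ℝ) : ℂ) := by
    simp_rw [hPc]
    have h2 : ∀ v, g v * ∑ i, conj (c i) * e v i = ∑ i, conj (c i) * (g v * e v i) := by
      intro v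
      rw [Finset.mul_sum]
      exact Finset.sum_congr rfl fun i _ => by ring
    simp_rw [h2]
    rw [integral_finsetSum _ fun i _ => ((hg.mul (he i)).int sg).const_mul _, ns_coe]
    refine Finset.sum_congr rfl fun i _ => ?_
    rw [integral_const_mul, mul_comm]
    congr 1
    rw [hc]
  have h2 : ∫ v, P v * conj (g v) ∂sg = ((ns c : ℝ) : ℂ) := by
    have h3 : ∀ v, P v * conj (g v) = conj (g v * conj (P v)) := by
      intro v; simp [mul_comm]
    simp_rw [h3]
    rw [integral_conj, h1, Complex.conj_ofReal]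
  have h3 : ∫ v, P v * conj (P v) ∂sg = ((ns c : ℝ) : ℂ) := by
    have h4 : ∀ v, P v * conj (P v) = ∑ i, c i * ∑ j, conj (c j) * (e v j * conj (e v i)) := by
      intro v
      rw [hPc]
      simp only [hP]
      rw [Finset.sum_mul]
      refine Finset.sum_congr rfl fun i _ => ?_
      rw [Finset.mul_sum, Finset.mul_sum]
      exact Finset.sum_congr rfl fun j _ => by ring
    simp_rw [h4]
    have h5 : ∀ i j, Integrable (fun v => conj (c j) * (e v j * conj (e v i))) sg := fun i j =>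
      (((he j).mul (he i).conj).int sg).const_mul _
    rw [integral_finsetSum _ fun i _ => (integrable_finsetSum _ fun j _ => h5 i j).const_mul _, ns_coe]
    refine Finset.sum_congr rfl fun i _ => ?_
    rw [integral_const_mul, integral_finsetSum _ fun j _ => h5 i j]
    congr 1
    simp_rw [integral_const_mul, ho]
    simp
  have h4 : ((∫ v, ‖g v - P v‖ ^ 2 ∂sg : ℝ) : ℂ) = ((∫ v, ‖g v‖ ^ 2 ∂sg : ℝ) : ℂ) - ((ns c : ℝ) : ℂ) := by
    rw [← int_mul_conj, ← int_mul_conj]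
    have h5 : ∀ v, (g v - P v) * conj (g v - P v) =
        (g v * conj (g v) - g v * conj (P v)) - (P v * conj (g v) - P v * conj (P v)) := by
      intro v; simp only [map_sub]; ring
    simp_rw [h5]
    have i1 := (hg.mul hg.conj).int sg
    have i2 := (hg.mul hPb.conj).int sg
    have i3 := (hPb.mul hg.conj).int sg
    have i4 := (hPb.mul hPb.conj).int sg
    have e1 : ∫ v, ((g v * conj (g v) - g v * conj (P v)) - (P v * conj (g v) - P v * conj (P v))) ∂sg =
        (∫ v, (g v * conj (g v) - g v * conj (P v)) ∂sg) - ∫ v, (P v * conj (g v) - P v * conj (P v)) ∂sg :=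
      integral_sub (i1.sub i2) (i3.sub i4)
    rw [e1, integral_sub i1 i2, integral_sub i3 i4, h1, h2, h3]
    ring
  have h5 : (∫ v, ‖g v - P v‖ ^ 2 ∂sg : ℝ) = (∫ v, ‖g v‖ ^ 2 ∂sg) - ns c := by exact_mod_cast h4
  have h6 : 0 ≤ (∫ v, ‖g v - P v‖ ^ 2 ∂sg : ℝ) := integral_nonneg fun v => sq_nonneg _
  linarith

/-- Parseval's identity -/
lemma parseval {n : ℕ} (e : Om → Fin n → ℂ) (he : ∀ i, BM fun v => e v i)
    (ho : ∀ i j, ∫ v, e v i * conj (e v j) ∂sg = if i = j then 1 else 0) (f : Fin n → ℂ) :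
    ∫ v, ‖∑ i, e v i * f i‖ ^ 2 ∂sg = ns f := by
  have h0 : ((∫ v, ‖∑ i, e v i * f i‖ ^ 2 ∂sg : ℝ) : ℂ) = ((ns f : ℝ) : ℂ) := by
    rw [← int_mul_conj, ns_coe]
    have h4 : ∀ v, (∑ i, e v i * f i) * conj (∑ i, e v i * f i) =
        ∑ i, f i * ∑ j, conj (f j) * (e v i * conj (e v j)) := by
      intro v
      rw [map_sum, Finset.sum_mul]
      refine Finset.sum_congr rfl fun i _ => ?_
      rw [Finset.mul_sum, Finset.mul_sum]
      refine Finset.sum_congr rfl fun j _ => ?_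
      rw [map_mul]; ring
    simp_rw [h4]
    have h5 : ∀ i j, Integrable (fun v => conj (f j) * (e v i * conj (e v j))) sg := fun i j =>
      (((he i).mul (he j).conj).int sg).const_mul _
    rw [integral_finsetSum _ fun i _ => (integrable_finsetSum _ fun j _ => h5 i j).const_mul _]
    refine Finset.sum_congr rfl fun i _ => ?_
    rw [integral_const_mul, integral_finsetSum _ fun j _ => h5 i j]
    congr 1
    simp_rw [integral_const_mul, ho]
    simp
  exact_mod_cast h0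

/-! ### The coherent states -/

lemma ns_ph_le (hK : S_KER) (n : ℕ) (v : Om) : ns (ph n v) ≤ n := by
  by_cases h : nn2 v = 0
  · rcases n with _ | _ | n
    · simp [ns]
    · unfold nn2 at h
      have h1 : v.1 = 0 := by
        have : ‖v.1‖ ^ 2 = 0 := by nlinarith [sq_nonneg ‖v.1‖, sq_nonneg ‖v.2‖]
        simpa using this
      simp [ns, ph]
    · have h2 : ∀ j, ph (n + 1 + 1) v j = 0 := by
        intro j
        unfold ph
        rw [h]
        simp
      unfold ns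
      simp only [h2]
      simp
      positivity
  · exact (hK.2.2.1 n v h).le

lemma ph_bm (hK : S_KER) (n : ℕ) (j : Fin n) : BM (fun v => ph n v j) := by
  refine ⟨hK.2.2.2.1 n j, √n, fun v => ?_⟩
  refine Real.le_sqrt_of_sq_le ?_
  exact (norm_le_ns (ph n v) j).trans (ns_ph_le hK n v)

lemma TT_int (hK : S_KER) (n : ℕ) {h : Om → ℂ} (hh : Integrable h sg) (i j : Fin n) :
    Integrable (fun v => h v * (ph n v i * conj (ph n v j))) sg := by
  have h1 := (ph_bm hK n i).mul (ph_bm hK n j).conj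
  obtain ⟨h2, C, h3⟩ := h1
  exact hh.mul_bdd h2.aestronglyMeasurable (ae_of_all _ h3)

lemma ortho (hO : S_ONB) (n : ℕ) (i j : Fin n) :
    ∫ v, ph n v i * conj (ph n v j) ∂sg = if i = j then 1 else 0 := by
  have h1 := congrFun (congrFun (hO.1 n) i) j
  unfold TT at h1
  simp only [Matrix.of_apply, one_mul] at h1
  rw [h1, Matrix.one_apply]

lemma ortho' (hO : S_ONB) (n : ℕ) (i j : Fin n) :
    ∫ v, conj (ph n v i) * conj (conj (ph n v j)) ∂sg = if i = j then 1 else 0 := by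
  have h1 := ortho hO n j i
  simp only [Complex.conj_conj]
  have h2 : ∀ v, conj (ph n v i) * ph n v j = ph n v j * conj (ph n v i) := fun v => mul_comm _ _
  simp_rw [h2]
  rw [h1]
  simp [eq_comm]

end

end Pool.Agent.P8H85.FM
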