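import Pool.Agent.P8H85.FM.Trc

/-!
Project FM (helper98), packages LIP and LIP2 (helper85).
-/

set_option autoImplicit false

open MeasureTheory Complex Filter Topology
open scoped ENNReal NNReal ComplexConjugate

namespace Pool.Agent.P8H85.FM

open Pool.Agent.P8H98.FM

noncomputable section

/-! ### The law of the distance -/

lemma d2_meas (hK : S_KER) (w : Om) : Measurable fun v => d2 v w := by
  have h := hK.2.2.2.2.2.1
  exact Measurable.comp (g := fun p : Om × Om => d2 p.1 p.2) (f := fun v : Om => ((v, w) : Om × Om)) h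
    (measurable_id.prodMk measurable_const)

lemma meas_d2' (hK : S_KER) (v : Om) : Measurable fun w => d2 v w := by
  have h1 : ∀ w, d2 v w = d2 w v := fun w => (hK.2.2.2.2.2.2.1 v w).2.2
  simp_rw [h1]
  exact d2_meas hK v

lemma law (hK : S_KER) (w : Om) (hw : nn2 w ≠ 0) :
    Measure.map (fun v => d2 v w) sg = volume.restrict (Set.Icc (0 : ℝ) 1) := by
  ext s hs
  rw [Measure.map_apply (d2_meas hK w) hs]
  have h1 := hK.2.2.2.2.2.2.2.2 w hw (s.indicator fun _ => 1) (measurable_const.indicator hs)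
  rw [lintegral_indicator_const hs 1, one_mul] at h1
  rw [← h1]
  have h2 : (fun v => s.indicator (fun _ => (1 : ℝ≥0∞)) (d2 v w)) =
      ((fun v => d2 v w) ⁻¹' s).indicator fun _ => 1 := by
    funext v; rfl
  rw [h2, lintegral_indicator_const (d2_meas hK w hs) 1, one_mul]

lemma law_int (hK : S_KER) (w : Om) (hw : nn2 w ≠ 0) (f : ℝ → ℝ) (hf : Measurable f) :
    ∫ v, f (d2 w v) ∂sg = ∫ x in (0 : ℝ)..1, f x := by
  have h1 : ∀ v, d2 w v = d2 v w := fun v => (hK.2.2.2.2.2.2.1 w v).2.2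
  simp_rw [h1]
  rw [intervalIntegral.integral_of_le zero_le_one, ← integral_Icc_eq_integral_Ioc, ← law hK w hw,
    integral_map (d2_meas hK w).aemeasurable hf.aestronglyMeasurable]

lemma refl_int (f : ℝ → ℝ) : ∫ x in (0 : ℝ)..1, f (1 - x) = ∫ x in (0 : ℝ)..1, f x := by
  rw [intervalIntegral.integral_comp_sub_left (fun x => f x) 1]
  norm_num

lemma pow_int (m : ℕ) : ∫ x in (0 : ℝ)..1, x ^ m = 1 / (m + 1) := by
  rw [integral_pow]; simp

lemma I1 (m : ℕ) : ∫ x in (0 : ℝ)..1, (1 - x) ^ m * x = 1 / (m + 1) - 1 / (m + 2) := by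
  have h1 := refl_int fun y => y ^ m * (1 - y)
  simp only [sub_sub_cancel] at h1
  rw [h1]
  have h2 : ∀ y : ℝ, y ^ m * (1 - y) = y ^ m - y ^ (m + 1) := by intro y; ring
  simp_rw [h2]
  rw [intervalIntegral.integral_sub (Continuous.intervalIntegrable (by fun_prop) _ _)
    (Continuous.intervalIntegrable (by fun_prop) _ _), pow_int, pow_int]
  push_cast
  ring

lemma I2 (m : ℕ) : (∫ x in (0 : ℝ)..1, (1 - x) ^ m * x ^ 2) =
    (1 : ℝ) / ((m : ℝ) + 1) - 2 / ((m : ℝ) + 2) + 1 / ((m : ℝ) + 3) := by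
  have h1 := refl_int fun y => y ^ m * (1 - y) ^ 2
  simp only [sub_sub_cancel] at h1
  rw [h1]
  have h2 : ∀ y : ℝ, y ^ m * (1 - y) ^ 2 = y ^ m - 2 * y ^ (m + 1) + y ^ (m + 2) := by intro y; ring
  simp_rw [h2]
  rw [intervalIntegral.integral_add (Continuous.intervalIntegrable (by fun_prop) _ _)
    (Continuous.intervalIntegrable (by fun_prop) _ _),
    intervalIntegral.integral_sub (Continuous.intervalIntegrable (by fun_prop) _ _)
    (Continuous.intervalIntegrable (by fun_prop) _ _),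
    intervalIntegral.integral_const_mul, pow_int, pow_int, pow_int]
  push_cast
  ring

lemma rpow_int (r : ℝ) (hr : 0 ≤ r) : ∫ x in (0 : ℝ)..1, x ^ r = 1 / (r + 1) := by
  rw [integral_rpow (Or.inl (by linarith))]
  rw [Real.one_rpow, Real.zero_rpow (by linarith)]
  simp

lemma J1 (m : ℕ) : ∫ x in (0 : ℝ)..1, √((1 - x) ^ m) = 2 / (m + 2) := by
  have h1 := refl_int fun y => √(y ^ m)
  rw [h1]
  have h2 : ∫ x in (0 : ℝ)..1, √(x ^ m) = ∫ x in (0 : ℝ)..1, x ^ ((m : ℝ) / 2) := by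
    refine intervalIntegral.integral_congr fun x hx => ?_
    rw [Set.uIcc_of_le zero_le_one] at hx
    rw [← Real.rpow_natCast, Real.sqrt_eq_rpow, ← Real.rpow_mul hx.1]
    ring_nf
  rw [h2, rpow_int _ (by positivity)]
  field_simp

lemma J2 (m : ℕ) : ∫ x in (0 : ℝ)..1, √((1 - x) ^ m) * x = 2 / (m + 2) - 2 / (m + 4) := by
  have h1 := refl_int fun y => √(y ^ m) * (1 - y)
  simp only [sub_sub_cancel] at h1
  rw [h1]
  have h2 : ∫ x in (0 : ℝ)..1, √(x ^ m) * (1 - x) =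
      ∫ x in (0 : ℝ)..1, (x ^ ((m : ℝ) / 2) - x ^ ((m : ℝ) / 2 + 1)) := by
    refine intervalIntegral.integral_congr fun x hx => ?_
    rw [Set.uIcc_of_le zero_le_one] at hx
    rw [Real.rpow_add_one' hx.1 (by positivity), ← Real.rpow_natCast, Real.sqrt_eq_rpow,
      ← Real.rpow_mul hx.1]
    ring_nf
  have c1 : IntervalIntegrable (fun x : ℝ => x ^ ((m : ℝ) / 2)) volume 0 1 :=
    intervalIntegral.intervalIntegrable_rpow' (by have : (0 : ℝ) ≤ m := Nat.cast_nonneg m; linarith)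
  have c2 : IntervalIntegrable (fun x : ℝ => x ^ ((m : ℝ) / 2 + 1)) volume 0 1 :=
    intervalIntegral.intervalIntegrable_rpow' (by have : (0 : ℝ) ≤ m := Nat.cast_nonneg m; linarith)
  rw [h2, intervalIntegral.integral_sub c1 c2, rpow_int _ (by positivity), rpow_int _ (by positivity)]
  field_simp
  ring

lemma J3 (n : ℕ) (hn : 1 ≤ n) : (n : ℝ) * ∫ x in (0 : ℝ)..1, √((1 - x) ^ (n - 1)) * √x ≤ 3 / √n := by
  have hn0 : (0 : ℝ) < n := by exact_mod_cast hn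
  have hs : 0 < √(n : ℝ) := Real.sqrt_pos.2 hn0
  have hss : √(n : ℝ) * √n = n := Real.mul_self_sqrt hn0.le
  have h1 : ∫ x in (0 : ℝ)..1, √((1 - x) ^ (n - 1)) * √x ≤
      ∫ x in (0 : ℝ)..1, (√n / 2 * (√((1 - x) ^ (n - 1)) * x) + 1 / (2 * √n) * √((1 - x) ^ (n - 1))) := by
    refine intervalIntegral.integral_mono_on zero_le_one (Continuous.intervalIntegrable (by fun_prop) _ _)
      (Continuous.intervalIntegrable (by fun_prop) _ _) fun x hx => ?_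
    have h2 : √x ≤ √n / 2 * x + 1 / (2 * √n) := by
      have h3 := Real.mul_self_sqrt hx.1
      have h4 : 0 ≤ (√n * √x - 1) ^ 2 := sq_nonneg _
      have h5 : √n / 2 * x + 1 / (2 * √n) - √x = (√n * √x - 1) ^ 2 / (2 * √n) := by
        field_simp
        nlinarith
      have h6 : 0 ≤ (√n * √x - 1) ^ 2 / (2 * √n) := by positivity
      linarith
    have h7 := mul_le_mul_of_nonneg_left h2 (Real.sqrt_nonneg ((1 - x) ^ (n - 1)))
    linarith
  have h2 : ∫ x in (0 : ℝ)..1, (√n / 2 * (√((1 - x) ^ (n - 1)) * x) + 1 / (2 * √n) * √((1 - x) ^ (n - 1))) =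
      √n / 2 * (2 / (n + 1) - 2 / (n + 3)) + 1 / (2 * √n) * (2 / (n + 1)) := by
    rw [intervalIntegral.integral_add (Continuous.intervalIntegrable (by fun_prop) _ _)
    (Continuous.intervalIntegrable (by fun_prop) _ _), intervalIntegral.integral_const_mul,
      intervalIntegral.integral_const_mul, J1, J2]
    have e : ((n - 1 : ℕ) : ℝ) = n - 1 := by push_cast [hn]; ring
    rw [e]
    ring_nf
  have h3 : (n : ℝ) * (√n / 2 * (2 / (n + 1) - 2 / (n + 3)) + 1 / (2 * √n) * (2 / (n + 1))) ≤ 3 / √n := by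
    have e1 : (2 : ℝ) / (n + 1) - 2 / (n + 3) = 4 / ((n + 1) * (n + 3)) := by field_simp; ring
    rw [e1]
    have e2 : (4 : ℝ) / ((n + 1) * (n + 3)) ≤ 4 / n ^ 2 := by
      apply div_le_div_of_nonneg_left (by norm_num) (by positivity)
      nlinarith
    have e3 : (2 : ℝ) / (n + 1) ≤ 2 / n := by
      apply div_le_div_of_nonneg_left (by norm_num) hn0
      linarith
    calc (n : ℝ) * (√n / 2 * (4 / ((n + 1) * (n + 3))) + 1 / (2 * √n) * (2 / (n + 1)))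
        ≤ (n : ℝ) * (√n / 2 * (4 / n ^ 2) + 1 / (2 * √n) * (2 / n)) := by gcongr
      _ = 3 / √n := by
          have h8 : √(n : ℝ) ^ 2 = n := Real.sq_sqrt hn0.le
          field_simp
          nlinarith
  calc _ ≤ (n : ℝ) * (√n / 2 * (2 / (n + 1) - 2 / (n + 3)) + 1 / (2 * √n) * (2 / (n + 1))) := by
        rw [← h2]; gcongr
    _ ≤ _ := h3

/-! ### The kernel -/

def KK (n : ℕ) (v w : Om) : ℂ := ∑ j, conj (ph n v j) * ph n w j

lemma KK_bm (hK : S_KER) (n : ℕ) : BM (fun p : Om × Om => KK n p.1 p.2) := by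
  unfold KK
  exact BM.sum _ fun j _ => ((ph_bm hK n j).comp measurable_fst).conj.mul ((ph_bm hK n j).comp measurable_snd)

lemma KK_bm1 (hK : S_KER) (n : ℕ) (v : Om) : BM (fun w : Om => KK n v w) :=
  (KK_bm hK n).comp (u := fun w : Om => (v, w)) (measurable_const.prodMk measurable_id)

lemma KK_symm (n : ℕ) (v w : Om) : ‖KK n v w‖ = ‖KK n w v‖ := by
  have h : KK n w v = conj (KK n v w) := by
    unfold KK
    rw [map_sum]
    refine Finset.sum_congr rfl fun j _ => ?_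
    rw [map_mul, Complex.conj_conj, mul_comm]
  rw [h, Complex.norm_conj]

lemma KK_norm (hK : S_KER) (n : ℕ) (v w : Om) (hv : nn2 v ≠ 0) (hw : nn2 w ≠ 0) :
    ‖KK n v w‖ = n * √((1 - d2 v w) ^ (n - 1)) := by
  have h := hK.2.1 n v w hv hw
  have h1 := (hK.2.2.2.2.2.2.1 v w)
  have h2 : 0 ≤ (1 - d2 v w) ^ (n - 1) := pow_nonneg (by linarith [h1.2.1]) _
  have h3 : ‖KK n v w‖ ^ 2 = (n * √((1 - d2 v w) ^ (n - 1))) ^ 2 := by
    rw [mul_pow, Real.sq_sqrt h2]; exact h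
  exact (sq_eq_sq₀ (norm_nonneg _) (by positivity)).1 h3

/-- the kernel with one difference -/
def kd (n : ℕ) (b : Om → ℂ) (v w : Om) : ℂ := KK n v w * (b v - b w)

lemma kd_bm (hK : S_KER) (n : ℕ) {b : Om → ℂ} (hb : BM b) : BM (fun p : Om × Om => kd n b p.1 p.2) :=
  (KK_bm hK n).mul ((hb.comp measurable_fst).sub (hb.comp measurable_snd))

lemma kd_bm1 (hK : S_KER) (n : ℕ) {b : Om → ℂ} (hb : BM b) (v : Om) : BM (fun w : Om => kd n b v w) :=
  (kd_bm hK n hb).comp (u := fun w : Om => (v, w)) (measurable_const.prodMk measurable_id)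

lemma kd_symm (n : ℕ) (b : Om → ℂ) (v w : Om) : ‖kd n b v w‖ = ‖kd n b w v‖ := by
  unfold kd; rw [norm_mul, norm_mul, KK_symm, norm_sub_rev]

lemma kd_le (hK : S_KER) (n : ℕ) {b : Om → ℂ} {L : ℝ}
    (hb : ∀ v w, nn2 v ≠ 0 → nn2 w ≠ 0 → ‖b v - b w‖ ≤ L * √(d2 v w)) (v w : Om) (hv : nn2 v ≠ 0)
    (hw : nn2 w ≠ 0) : ‖kd n b v w‖ ≤ L * (n * (√((1 - d2 v w) ^ (n - 1)) * √(d2 v w))) := by
  unfold kd
  rw [norm_mul, KK_norm hK n v w hv hw]
  calc _ ≤ (n : ℝ) * √((1 - d2 v w) ^ (n - 1)) * (L * √(d2 v w)) :=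
        mul_le_mul_of_nonneg_left (hb v w hv hw) (by positivity)
    _ = _ := by ring

/-- the row sums -/
lemma row1 (hK : S_KER) (n : ℕ) (hn : 1 ≤ n) {b : Om → ℂ} (hbm : BM b) {L : ℝ} (hL : 0 ≤ L)
    (hb : ∀ v w, nn2 v ≠ 0 → nn2 w ≠ 0 → ‖b v - b w‖ ≤ L * √(d2 v w)) (v : Om) (hv : nn2 v ≠ 0) :
    ∫ w, ‖kd n b v w‖ ∂sg ≤ 3 * L / √n := by
  have hf : Measurable fun x : ℝ => L * ((n : ℝ) * (√((1 - x) ^ (n - 1)) * √x)) := by fun_prop
  have h1 : ∫ w, ‖kd n b v w‖ ∂sg ≤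
      ∫ w, (fun x : ℝ => L * ((n : ℝ) * (√((1 - x) ^ (n - 1)) * √x))) (d2 v w) ∂sg := by
    refine integral_mono_ae ((kd_bm1 hK n hbm v).int sg).norm ?_ ?_
    · refine Integrable.of_bound (hf.comp ?_).aestronglyMeasurable (L * n) (ae_of_all _ fun w => ?_)
      · exact meas_d2' hK v
      · have h2 := (hK.2.2.2.2.2.2.1 v w)
        have h3 : √((1 - d2 v w) ^ (n - 1)) ≤ 1 :=
          Real.sqrt_le_one.2 (pow_le_one₀ (by linarith [h2.2.1]) (by linarith [h2.1]))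
        have h4 : √(d2 v w) ≤ 1 := Real.sqrt_le_one.2 h2.2.1
        have h5 : √((1 - d2 v w) ^ (n - 1)) * √(d2 v w) ≤ 1 :=
          mul_le_one₀ h3 (Real.sqrt_nonneg _) h4
        rw [Real.norm_eq_abs, abs_of_nonneg (by positivity)]
        calc L * ((n : ℝ) * (√((1 - d2 v w) ^ (n - 1)) * √(d2 v w))) ≤ L * ((n : ℝ) * 1) := by gcongr
          _ = _ := by ring
    · filter_upwards [hK.2.2.2.2.1] with w hw
      exact kd_le hK n hb v w hv hw
  refine h1.trans ?_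
  rw [law_int hK v hv _ hf, intervalIntegral.integral_const_mul, intervalIntegral.integral_const_mul]
  have h2 := J3 n hn
  calc L * ((n : ℝ) * ∫ x in (0 : ℝ)..1, √((1 - x) ^ (n - 1)) * √x) ≤ L * (3 / √n) := by gcongr
    _ = _ := by ring

lemma kd_sq (hK : S_KER) (n : ℕ) {b : Om → ℂ} {L : ℝ}
    (hb : ∀ v w, nn2 v ≠ 0 → nn2 w ≠ 0 → ‖b v - b w‖ ≤ L * √(d2 v w)) (v w : Om) (hv : nn2 v ≠ 0)
    (hw : nn2 w ≠ 0) : ‖kd n b v w‖ ^ 2 ≤ L ^ 2 * (n ^ 2 * ((1 - d2 v w) ^ (n - 1) * d2 v w)) := by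
  have h1 := (hK.2.2.2.2.2.2.1 v w)
  have h2 : 0 ≤ (1 - d2 v w) ^ (n - 1) := pow_nonneg (by linarith [h1.2.1]) _
  calc ‖kd n b v w‖ ^ 2 ≤ (L * (n * (√((1 - d2 v w) ^ (n - 1)) * √(d2 v w)))) ^ 2 :=
        pow_le_pow_left₀ (norm_nonneg _) (kd_le hK n hb v w hv hw) 2
    _ = L ^ 2 * (n ^ 2 * (√((1 - d2 v w) ^ (n - 1)) ^ 2 * √(d2 v w) ^ 2)) := by ring
    _ = _ := by rw [Real.sq_sqrt h2, Real.sq_sqrt h1.1]

lemma poly_int (hK : S_KER) (v : Om) (f : ℝ → ℝ) (hf : Continuous f) :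
    Integrable (fun w => f (d2 v w)) sg := by
  obtain ⟨C, hC⟩ := (isCompact_Icc (a := (0 : ℝ)) (b := 1)).exists_bound_of_continuousOn hf.continuousOn
  refine Integrable.of_bound (hf.measurable.comp (meas_d2' hK v)).aestronglyMeasurable C
    (ae_of_all _ fun w => ?_)
  have h2 := (hK.2.2.2.2.2.2.1 v w)
  exact hC _ ⟨h2.1, h2.2.1⟩

lemma row2 (hK : S_KER) (n : ℕ) (hn : 1 ≤ n) {b : Om → ℂ} (hbm : BM b) {L : ℝ}
    (hb : ∀ v w, nn2 v ≠ 0 → nn2 w ≠ 0 → ‖b v - b w‖ ≤ L * √(d2 v w)) (v : Om) (hv : nn2 v ≠ 0) :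
    ∫ w, ‖kd n b v w‖ ^ 2 ∂sg ≤ L ^ 2 := by
  have hn0 : (0 : ℝ) < n := by exact_mod_cast hn
  have hf : Continuous fun x : ℝ => L ^ 2 * ((n : ℝ) ^ 2 * ((1 - x) ^ (n - 1) * x)) := by fun_prop
  have h1 : ∫ w, ‖kd n b v w‖ ^ 2 ∂sg ≤
      ∫ w, (fun x : ℝ => L ^ 2 * ((n : ℝ) ^ 2 * ((1 - x) ^ (n - 1) * x))) (d2 v w) ∂sg := by
    refine integral_mono_ae ((kd_bm1 hK n hbm v).sq_int sg) (poly_int hK v _ hf) ?_
    filter_upwards [hK.2.2.2.2.1] with w hw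
    exact kd_sq hK n hb v w hv hw
  refine h1.trans ?_
  rw [law_int hK v hv _ hf.measurable, intervalIntegral.integral_const_mul,
    intervalIntegral.integral_const_mul, I1]
  have e : ((n - 1 : ℕ) : ℝ) = n - 1 := by push_cast [hn]; ring
  rw [e]
  have e2 : (n : ℝ) ^ 2 * (1 / (n - 1 + 1) - 1 / (n - 1 + 2)) = n / (n + 1) := by
    have t1 : (n : ℝ) - 1 + 2 = n + 1 := by ring
    have t0 : (n : ℝ) - 1 + 1 = n := by ring
    rw [t1, t0]
    field_simp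
    ring
  rw [e2]
  have h3 : (n : ℝ) / (n + 1) ≤ 1 := by rw [div_le_one (by positivity)]; linarith
  calc L ^ 2 * ((n : ℝ) / (n + 1)) ≤ L ^ 2 * 1 := by gcongr
    _ = _ := mul_one _

lemma row4 (hK : S_KER) (n : ℕ) (hn : 1 ≤ n) {b c : Om → ℂ} (hbm : BM b) (hcm : BM c) {L L' : ℝ}
    (hb : ∀ v w, nn2 v ≠ 0 → nn2 w ≠ 0 → ‖b v - b w‖ ≤ L * √(d2 v w))
    (hc : ∀ v w, nn2 v ≠ 0 → nn2 w ≠ 0 → ‖c v - c w‖ ≤ L' * √(d2 v w)) (v : Om) (hv : nn2 v ≠ 0) :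
    ∫ w, ‖kd n c v w * (b v - b w)‖ ^ 2 ∂sg ≤ 2 * L ^ 2 * L' ^ 2 / n := by
  have hn0 : (0 : ℝ) < n := by exact_mod_cast hn
  have hf : Continuous fun x : ℝ => L ^ 2 * L' ^ 2 * ((n : ℝ) ^ 2 * ((1 - x) ^ (n - 1) * x ^ 2)) := by
    fun_prop
  have h1 : ∫ w, ‖kd n c v w * (b v - b w)‖ ^ 2 ∂sg ≤
      ∫ w, (fun x : ℝ => L ^ 2 * L' ^ 2 * ((n : ℝ) ^ 2 * ((1 - x) ^ (n - 1) * x ^ 2))) (d2 v w) ∂sg := by
    refine integral_mono_ae (((kd_bm1 hK n hcm v).mul ((BM.const (b v)).sub hbm)).sq_int sg)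
      (poly_int hK v _ hf) ?_
    filter_upwards [hK.2.2.2.2.1] with w hw
    have h2 := (hK.2.2.2.2.2.2.1 v w)
    have h3 := kd_sq hK n hc v w hv hw
    have h4 : ‖b v - b w‖ ^ 2 ≤ L ^ 2 * d2 v w := by
      calc ‖b v - b w‖ ^ 2 ≤ (L * √(d2 v w)) ^ 2 := pow_le_pow_left₀ (norm_nonneg _) (hb v w hv hw) 2
        _ = _ := by rw [mul_pow, Real.sq_sqrt h2.1]
    have h5 : 0 ≤ L' ^ 2 * ((n : ℝ) ^ 2 * ((1 - d2 v w) ^ (n - 1) * d2 v w)) := (sq_nonneg _).trans h3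
    rw [norm_mul, mul_pow]
    calc ‖kd n c v w‖ ^ 2 * ‖b v - b w‖ ^ 2 ≤
        (L' ^ 2 * ((n : ℝ) ^ 2 * ((1 - d2 v w) ^ (n - 1) * d2 v w))) * (L ^ 2 * d2 v w) :=
          mul_le_mul h3 h4 (sq_nonneg _) h5
      _ = _ := by ring
  refine h1.trans ?_
  rw [law_int hK v hv _ hf.measurable, intervalIntegral.integral_const_mul,
    intervalIntegral.integral_const_mul, I2]
  have e : ((n - 1 : ℕ) : ℝ) = n - 1 := by push_cast [hn]; ring
  rw [e]
  have e2 : (n : ℝ) ^ 2 * (1 / (n - 1 + 1) - 2 / (n - 1 + 2) + 1 / (n - 1 + 3)) =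
      2 * n / ((n + 1) * (n + 2)) := by
    have t1 : (n : ℝ) - 1 + 2 = n + 1 := by ring
    have t2 : (n : ℝ) - 1 + 3 = n + 2 := by ring
    have t0 : (n : ℝ) - 1 + 1 = n := by ring
    rw [t1, t2, t0]
    field_simp
    ring
  rw [e2]
  have h3 : 2 * (n : ℝ) / ((n + 1) * (n + 2)) ≤ 2 / n := by
    rw [div_le_div_iff₀ (by positivity) hn0]; nlinarith
  calc L ^ 2 * L' ^ 2 * (2 * (n : ℝ) / ((n + 1) * (n + 2))) ≤ L ^ 2 * L' ^ 2 * (2 / n) := by gcongr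
    _ = _ := by ring

end

end Pool.Agent.P8H85.FM
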