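import Pool.Agent.P8H85.FM.Lip

/-!
Project FM (helper98), packages LIP and LIP2, second part (helper85).
-/

set_option autoImplicit false

open MeasureTheory Complex Filter Topology
open scoped ENNReal NNReal ComplexConjugate

namespace Pool.Agent.P8H85.FM

open Pool.Agent.P8H98.FM

noncomputable section

/-- `gf` is an integral against the kernel -/
lemma gf_eq (hK : S_KER) (hO : S_ONB) (n : ℕ) {b : Om → ℂ} (hb : BM b) (v : Om) (l : Fin n) :
    gf n b v l = ∫ w, kd n b v w * conj (ph n w l) ∂sg := by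
  have h1 : ∀ w, kd n b v w * conj (ph n w l) =
      (∑ j, b v * conj (ph n v j) * (ph n w j * conj (ph n w l))) -
      ∑ j, conj (ph n v j) * (b w * (ph n w j * conj (ph n w l))) := by
    intro w
    unfold kd KK
    rw [Finset.sum_mul, Finset.sum_mul, ← Finset.sum_sub_distrib]
    exact Finset.sum_congr rfl fun j _ => by ring
  simp_rw [h1]
  have i1 : ∀ j, Integrable (fun w => b v * conj (ph n v j) * (ph n w j * conj (ph n w l))) sg := fun j =>
    (((ph_bm hK n j).mul (ph_bm hK n l).conj).int sg).const_mul _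
  have i2 : ∀ j, Integrable (fun w => conj (ph n v j) * (b w * (ph n w j * conj (ph n w l)))) sg := fun j =>
    (TT_int hK n (hb.int sg) j l).const_mul _
  rw [integral_sub (integrable_finsetSum _ fun j _ => i1 j) (integrable_finsetSum _ fun j _ => i2 j),
    integral_finsetSum _ fun j _ => i1 j, integral_finsetSum _ fun j _ => i2 j]
  simp_rw [integral_const_mul, ortho hO]
  unfold gf
  congr 1
  · simp

lemma gf_bm (hK : S_KER) (n : ℕ) {b : Om → ℂ} (hb : BM b) (l : Fin n) : BM fun v => gf n b v l := by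
  unfold gf
  exact (hb.mul (ph_bm hK n l).conj).sub (BM.sum _ fun i _ => (ph_bm hK n i).conj.mul (BM.const _))

lemma TT_mulVec (hK : S_KER) (n : ℕ) {h : Om → ℂ} (hh : BM h) (x : Fin n → ℂ) (i : Fin n) :
    (TT n h).mulVec x i = ∫ v, (h v * ∑ j, conj (ph n v j) * x j) * ph n v i ∂sg := by
  have h1 : ∀ v, (h v * ∑ j, conj (ph n v j) * x j) * ph n v i =
      ∑ j, x j * (h v * (ph n v i * conj (ph n v j))) := by
    intro v
    rw [Finset.mul_sum, Finset.sum_mul]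
    exact Finset.sum_congr rfl fun j _ => by ring
  simp_rw [h1]
  rw [integral_finsetSum _ fun j _ => (TT_int hK n (hh.int sg) i j).const_mul _]
  simp_rw [integral_const_mul]
  unfold Matrix.mulVec dotProduct TT
  exact Finset.sum_congr rfl fun j _ => mul_comm _ _

/-- the vector field with coefficients `f` -/
lemma pars (hK : S_KER) (hO : S_ONB) (n : ℕ) (x : Fin n → ℂ) :
    ∫ v, ‖∑ j, conj (ph n v j) * x j‖ ^ 2 ∂sg = ns x :=
  parseval (fun v i => conj (ph n v i)) (fun i => (ph_bm hK n i).conj) (ortho' hO n) x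

lemma sum_bm (hK : S_KER) (n : ℕ) (x : Fin n → ℂ) : BM fun v => ∑ j, conj (ph n v j) * x j :=
  BM.sum _ fun j _ => (ph_bm hK n j).conj.mul (BM.const _)

/-- `T(h)` has norm at most `sup |h|` -/
lemma op_TT (hK : S_KER) (hO : S_ONB) (n : ℕ) {h : Om → ℂ} (hh : Measurable h) {H : ℝ}
    (hH : ∀ v, ‖h v‖ ≤ H) (x : Fin n → ℂ) : ns ((TT n h).mulVec x) ≤ H ^ 2 * ns x := by
  have hb : BM h := ⟨hh, H, hH⟩
  have hg := hb.mul (sum_bm hK n x)
  have h1 : (TT n h).mulVec x = fun i => ∫ v, (h v * ∑ j, conj (ph n v j) * x j) * ph n v i ∂sg := by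
    funext i; exact TT_mulVec hK n hb x i
  rw [h1]
  refine (bessel (fun v i => ph n v i) (fun i => ph_bm hK n i) (ortho hO n) _ hg).trans ?_
  rw [← pars hK hO n x, ← integral_const_mul]
  refine integral_mono (hg.sq_int sg) (((sum_bm hK n x).sq_int sg).const_mul _) fun v => ?_
  beta_reduce
  rw [norm_mul, mul_pow]
  exact mul_le_mul_of_nonneg_right (pow_le_pow_left₀ (norm_nonneg _) (hH v) 2) (sq_nonneg _)

/-- Cauchy-Schwarz with a weight -/
lemma cs_int {κ F : Om → ℂ} (hκ : BM κ) (hF : BM F) :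
    ‖∫ w, κ w * F w ∂sg‖ ^ 2 ≤ (∫ w, ‖κ w‖ ∂sg) * ∫ w, ‖κ w‖ * ‖F w‖ ^ 2 ∂sg := by
  have j1 : Integrable (fun w => ‖κ w‖) sg := (hκ.int sg).norm
  have j2 : Integrable (fun w => ‖κ w‖ * ‖F w‖) sg := by
    have := ((hκ.mul hF).int sg).norm
    simpa only [norm_mul] using this
  have j3 : Integrable (fun w => ‖κ w‖ * ‖F w‖ ^ 2) sg := by
    have := ((hκ.mul (hF.mul hF)).int sg).norm
    simpa only [norm_mul, ← sq, norm_pow] using this
  have h1 : ‖∫ w, κ w * F w ∂sg‖ ≤ ∫ w, ‖κ w‖ * ‖F w‖ ∂sg := by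
    refine (norm_integral_le_integral_norm _).trans (le_of_eq ?_)
    simp only [norm_mul]
  have h2 : ∀ t : ℝ, 0 ≤ (∫ w, ‖κ w‖ ∂sg) * (t * t) + (-2 * ∫ w, ‖κ w‖ * ‖F w‖ ∂sg) * t +
      ∫ w, ‖κ w‖ * ‖F w‖ ^ 2 ∂sg := by
    intro t
    have h3 : (∫ w, ‖κ w‖ ∂sg) * (t * t) + (-2 * ∫ w, ‖κ w‖ * ‖F w‖ ∂sg) * t +
      ∫ w, ‖κ w‖ * ‖F w‖ ^ 2 ∂sg = ∫ w, ((‖κ w‖ * (t * t) + (-2 * (‖κ w‖ * ‖F w‖)) * t) +
        ‖κ w‖ * ‖F w‖ ^ 2) ∂sg := by
      have k1 : Integrable (fun w => ‖κ w‖ * (t * t)) sg := j1.mul_const _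
      have k2 : Integrable (fun w => (-2 * (‖κ w‖ * ‖F w‖)) * t) sg := (j2.const_mul _).mul_const _
      have k3 : Integrable (fun w => ‖κ w‖ * (t * t) + (-2 * (‖κ w‖ * ‖F w‖)) * t) sg := k1.add k2
      rw [integral_add k3 j3, integral_add k1 k2, integral_mul_const, integral_mul_const, integral_const_mul]
    rw [h3]
    refine integral_nonneg fun w => ?_
    have h4 : (‖κ w‖ * (t * t) + (-2 * (‖κ w‖ * ‖F w‖)) * t) + ‖κ w‖ * ‖F w‖ ^ 2 =
        ‖κ w‖ * (t - ‖F w‖) ^ 2 := by ring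
    simp only [Pi.zero_apply]
    rw [h4]
    positivity
  have h5 := discrim_le_zero h2
  unfold discrim at h5
  have h6 : ‖∫ w, κ w * F w ∂sg‖ ^ 2 ≤ (∫ w, ‖κ w‖ * ‖F w‖ ∂sg) ^ 2 :=
    pow_le_pow_left₀ (norm_nonneg _) h1 2
  nlinarith

/-- the Schur test -/
lemma schur (hK : S_KER) (n : ℕ) (hn : 1 ≤ n) {b : Om → ℂ} (hbm : BM b) {L : ℝ} (hL : 0 ≤ L)
    (hb : ∀ v w, nn2 v ≠ 0 → nn2 w ≠ 0 → ‖b v - b w‖ ≤ L * √(d2 v w)) {F : Om → ℂ} (hF : BM F) :
    ∫ v, ‖∫ w, kd n b v w * F w ∂sg‖ ^ 2 ∂sg ≤ 9 * L ^ 2 / n * ∫ w, ‖F w‖ ^ 2 ∂sg := by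
  have hn0 : (0 : ℝ) < n := by exact_mod_cast hn
  have hs : 0 < √(n : ℝ) := Real.sqrt_pos.2 hn0
  have hS : 0 ≤ 3 * L / √n := by positivity
  have hprod : Integrable (fun p : Om × Om => ‖kd n b p.1 p.2‖ * ‖F p.2‖ ^ 2) (sg.prod sg) := by
    have h1 := (((kd_bm hK n hbm).mul ((hF.comp measurable_snd).mul (hF.comp measurable_snd))).int
      (sg.prod sg)).norm
    simpa only [norm_mul, ← sq, norm_pow] using h1
  have h1 : ∫ v, ‖∫ w, kd n b v w * F w ∂sg‖ ^ 2 ∂sg ≤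
      ∫ v, (3 * L / √n) * ∫ w, ‖kd n b v w‖ * ‖F w‖ ^ 2 ∂sg ∂sg := by
    refine integral_mono_of_nonneg (ae_of_all _ fun v => sq_nonneg _) (hprod.integral_prod_left.const_mul _) ?_
    filter_upwards [hK.2.2.2.2.1] with v hv
    refine (cs_int (kd_bm1 hK n hbm v) hF).trans ?_
    refine mul_le_mul_of_nonneg_right (row1 hK n hn hbm hL hb v hv) ?_
    exact integral_nonneg fun w => by positivity
  refine h1.trans ?_
  rw [integral_const_mul, integral_integral_swap hprod]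
  have h2 : ∫ w, ∫ v, ‖kd n b v w‖ * ‖F w‖ ^ 2 ∂sg ∂sg ≤ ∫ w, (3 * L / √n) * ‖F w‖ ^ 2 ∂sg := by
    refine integral_mono_ae hprod.integral_prod_right ((hF.sq_int sg).const_mul _) ?_
    filter_upwards [hK.2.2.2.2.1] with w hw
    rw [integral_mul_const]
    refine mul_le_mul_of_nonneg_right ?_ (sq_nonneg _)
    have h3 : ∀ v, ‖kd n b v w‖ = ‖kd n b w v‖ := fun v => kd_symm n b v w
    simp_rw [h3]
    exact row1 hK n hn hbm hL hb w hw
  rw [integral_const_mul] at h2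
  calc 3 * L / √n * ∫ w, ∫ v, ‖kd n b v w‖ * ‖F w‖ ^ 2 ∂sg ∂sg ≤
        3 * L / √n * (3 * L / √n * ∫ w, ‖F w‖ ^ 2 ∂sg) := mul_le_mul_of_nonneg_left h2 hS
    _ = _ := by
        have e : 3 * L / √n * (3 * L / √n) = 9 * L ^ 2 / n := by
          rw [div_mul_div_comm, Real.mul_self_sqrt hn0.le]; ring
        rw [← mul_assoc, e]

lemma lip1 (hK : S_KER) (hO : S_ONB) (n : ℕ) {b : Om → ℂ} (hbm : BM b) {L : ℝ}
    (hb : ∀ v w, nn2 v ≠ 0 → nn2 w ≠ 0 → ‖b v - b w‖ ≤ L * √(d2 v w)) (v : Om) (hv : nn2 v ≠ 0) :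
    ns (gf n b v) ≤ L ^ 2 := by
  rcases Nat.eq_zero_or_pos n with h0 | hn
  · subst h0; simp only [ns, Finset.univ_eq_empty, Finset.sum_empty]; positivity
  · have h1 : gf n b v = fun l => ∫ w, kd n b v w * conj (ph n w l) ∂sg := by
      funext l; exact gf_eq hK hO n hbm v l
    rw [h1]
    exact (bessel (fun v i => conj (ph n v i)) (fun i => (ph_bm hK n i).conj) (ortho' hO n) _
      (kd_bm1 hK n hbm v)).trans (row2 hK n hn hbm hb v hv)

lemma gf_sum (hK : S_KER) (hO : S_ONB) (n : ℕ) {b : Om → ℂ} (hbm : BM b) (f : Fin n → ℂ) (v : Om) :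
    ∑ l, gf n b v l * f l = ∫ w, kd n b v w * ∑ l, conj (ph n w l) * f l ∂sg := by
  have h1 : ∀ w, kd n b v w * ∑ l, conj (ph n w l) * f l = ∑ l, f l * (kd n b v w * conj (ph n w l)) := by
    intro w
    rw [Finset.mul_sum]
    exact Finset.sum_congr rfl fun j _ => by ring
  simp_rw [h1]
  rw [integral_finsetSum _ fun l _ => (((kd_bm1 hK n hbm v).mul (ph_bm hK n l).conj).int sg).const_mul _]
  refine Finset.sum_congr rfl fun l _ => ?_
  rw [integral_const_mul, gf_eq hK hO n hbm v l, mul_comm]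

lemma lip2 (hK : S_KER) (hO : S_ONB) (n : ℕ) (hn : 1 ≤ n) {b : Om → ℂ} (hbm : BM b) {L : ℝ} (hL : 0 ≤ L)
    (hb : ∀ v w, nn2 v ≠ 0 → nn2 w ≠ 0 → ‖b v - b w‖ ≤ L * √(d2 v w)) (f : Fin n → ℂ) :
    ∫ v, ‖∑ l, gf n b v l * f l‖ ^ 2 ∂sg ≤ 9 * L ^ 2 / n * ns f := by
  simp_rw [gf_sum hK hO n hbm f]
  refine (schur hK n hn hbm hL hb (sum_bm hK n f)).trans (le_of_eq ?_)
  rw [pars hK hO n f]

/-- `T(bc) - T(b) T(c)` is an integral -/
lemma TT_sub (hK : S_KER) (n : ℕ) {b c : Om → ℂ} (hb : BM b) (hc : BM c) (x : Fin n → ℂ) (i : Fin n) :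
    (TT n (fun v => b v * c v) - TT n b * TT n c).mulVec x i =
      ∫ v, (b v * ∑ l, gf n c v l * x l) * ph n v i ∂sg := by
  have h1 : ∀ v, (b v * ∑ l, gf n c v l * x l) * ph n v i =
      (∑ l, x l * ((b v * c v) * (ph n v i * conj (ph n v l)))) -
      ∑ l, ∑ k, x l * TT n c k l * (b v * (ph n v i * conj (ph n v k))) := by
    intro v
    unfold gf
    rw [← Finset.sum_sub_distrib, Finset.mul_sum, Finset.sum_mul]
    refine Finset.sum_congr rfl fun l _ => ?_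
    rw [sub_mul, mul_sub, sub_mul, Finset.sum_mul, Finset.mul_sum, Finset.sum_mul]
    congr 1
    · ring
    · exact Finset.sum_congr rfl fun k _ => by ring
  simp_rw [h1]
  have i1 : ∀ l, Integrable (fun v => x l * ((b v * c v) * (ph n v i * conj (ph n v l)))) sg := fun l =>
    (TT_int hK n ((hb.mul hc).int sg) i l).const_mul _
  have i2 : ∀ l k, Integrable (fun v => x l * TT n c k l * (b v * (ph n v i * conj (ph n v k)))) sg :=
    fun l k => (TT_int hK n (hb.int sg) i k).const_mul _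
  rw [integral_sub (integrable_finsetSum _ fun l _ => i1 l)
    (integrable_finsetSum _ fun l _ => integrable_finsetSum _ fun k _ => i2 l k),
    integral_finsetSum _ fun l _ => i1 l,
    integral_finsetSum _ fun l _ => integrable_finsetSum _ fun k _ => i2 l k]
  have e1 : ∀ l, ∫ v, ∑ k, x l * TT n c k l * (b v * (ph n v i * conj (ph n v k))) ∂sg =
      ∑ k, x l * TT n c k l * TT n b i k := by
    intro l
    rw [integral_finsetSum _ fun k _ => i2 l k]
    refine Finset.sum_congr rfl fun k _ => ?_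
    rw [integral_const_mul]; rfl
  have e2 : ∀ l, ∫ v, x l * ((b v * c v) * (ph n v i * conj (ph n v l))) ∂sg =
      x l * TT n (fun v => b v * c v) i l := by
    intro l
    rw [integral_const_mul]; rfl
  simp_rw [e1, e2]
  rw [Matrix.sub_mulVec, Pi.sub_apply]
  congr 1
  · unfold Matrix.mulVec dotProduct
    exact Finset.sum_congr rfl fun j _ => mul_comm _ _
  · unfold Matrix.mulVec dotProduct
    refine Finset.sum_congr rfl fun l _ => ?_
    beta_reduce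
    rw [Matrix.mul_apply, Finset.sum_mul]
    exact Finset.sum_congr rfl fun k _ => by ring

lemma lip3 (hK : S_KER) (hO : S_ONB) (n : ℕ) (hn : 1 ≤ n) {b c : Om → ℂ} (hbm : Measurable b) {B : ℝ}
    (hB : ∀ v, ‖b v‖ ≤ B) (hcm : BM c) {L : ℝ} (hL : 0 ≤ L)
    (hc : ∀ v w, nn2 v ≠ 0 → nn2 w ≠ 0 → ‖c v - c w‖ ≤ L * √(d2 v w)) (x : Fin n → ℂ) :
    ns ((TT n (fun v => b v * c v) - TT n b * TT n c).mulVec x) ≤ 9 * B ^ 2 * L ^ 2 / n * ns x := by
  have hb : BM b := ⟨hbm, B, hB⟩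
  have hG : BM fun v => ∑ l, gf n c v l * x l := BM.sum _ fun l _ => (gf_bm hK n hcm l).mul (BM.const _)
  have h1 : (TT n (fun v => b v * c v) - TT n b * TT n c).mulVec x =
      fun i => ∫ v, (b v * ∑ l, gf n c v l * x l) * ph n v i ∂sg := by
    funext i; exact TT_sub hK n hb hcm x i
  rw [h1]
  refine (bessel (fun v i => ph n v i) (fun i => ph_bm hK n i) (ortho hO n) _ (hb.mul hG)).trans ?_
  calc ∫ v, ‖b v * ∑ l, gf n c v l * x l‖ ^ 2 ∂sg ≤ ∫ v, B ^ 2 * ‖∑ l, gf n c v l * x l‖ ^ 2 ∂sg := by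
        refine integral_mono ((hb.mul hG).sq_int sg) ((hG.sq_int sg).const_mul _) fun v => ?_
        beta_reduce
        rw [norm_mul, mul_pow]
        exact mul_le_mul_of_nonneg_right (pow_le_pow_left₀ (norm_nonneg _) (hB v) 2) (sq_nonneg _)
    _ = B ^ 2 * ∫ v, ‖∑ l, gf n c v l * x l‖ ^ 2 ∂sg := integral_const_mul _ _
    _ ≤ B ^ 2 * (9 * L ^ 2 / n * ns x) :=
        mul_le_mul_of_nonneg_left (lip2 hK hO n hn hcm hL hc x) (sq_nonneg _)
    _ = _ := by ring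

lemma lip4 (hK : S_KER) (hO : S_ONB) (n : ℕ) (hn : 1 ≤ n) {b c : Om → ℂ} (hbm : BM b) (hcm : BM c)
    {L L' : ℝ} (hL : 0 ≤ L) (hL' : 0 ≤ L')
    (hb : ∀ v w, nn2 v ≠ 0 → nn2 w ≠ 0 → ‖b v - b w‖ ≤ L * √(d2 v w))
    (hc : ∀ v w, nn2 v ≠ 0 → nn2 w ≠ 0 → ‖c v - c w‖ ≤ L' * √(d2 v w)) (v : Om) (hv : nn2 v ≠ 0) :
    ns (fun l => b v * gf n c v l - ∑ i, gf n c v i * TT n b i l) ≤ 22 * L ^ 2 * L' ^ 2 / n := by
  have hn0 : (0 : ℝ) < n := by exact_mod_cast hn
  have hs : 0 < √(n : ℝ) := Real.sqrt_pos.2 hn0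
  have hκ := kd_bm1 hK n hcm v
  have e : (fun l => b v * gf n c v l - ∑ i, gf n c v i * TT n b i l) =
      fun l => (∫ w, (kd n c v w * (b v - b w)) * conj (ph n w l) ∂sg) + ∫ w, kd n c v w * gf n b w l ∂sg := by
    funext l
    have i1 : Integrable (fun w => (kd n c v w * (b v - b w)) * conj (ph n w l)) sg :=
      ((hκ.mul ((BM.const (b v)).sub hbm)).mul (ph_bm hK n l).conj).int sg
    have i2 : Integrable (fun w => kd n c v w * gf n b w l) sg := (hκ.mul (gf_bm hK n hbm l)).int sg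
    rw [← integral_add i1 i2]
    have e1 : ∀ w, (kd n c v w * (b v - b w)) * conj (ph n w l) + kd n c v w * gf n b w l =
        b v * (kd n c v w * conj (ph n w l)) - ∑ i, TT n b i l * (kd n c v w * conj (ph n w i)) := by
      intro w
      unfold gf
      have e2 : kd n c v w * ∑ i, conj (ph n w i) * TT n b i l =
          ∑ i, TT n b i l * (kd n c v w * conj (ph n w i)) := by
        rw [Finset.mul_sum]
        exact Finset.sum_congr rfl fun i _ => by ring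
      rw [mul_sub (kd n c v w) (b w * conj (ph n w l)) _, e2]
      ring
    simp_rw [e1]
    have i3 : ∀ i, Integrable (fun w => TT n b i l * (kd n c v w * conj (ph n w i))) sg := fun i =>
      ((hκ.mul (ph_bm hK n i).conj).int sg).const_mul _
    rw [integral_sub (((hκ.mul (ph_bm hK n l).conj).int sg).const_mul _)
      (integrable_finsetSum _ fun i _ => i3 i), integral_finsetSum _ fun i _ => i3 i]
    simp_rw [integral_const_mul, ← gf_eq hK hO n hcm]
    congr 1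
    exact Finset.sum_congr rfl fun i _ => mul_comm _ _
  rw [e]
  refine (ns_add_le _ _).trans ?_
  have h1 : ns (fun l => ∫ w, (kd n c v w * (b v - b w)) * conj (ph n w l) ∂sg) ≤
      2 * L ^ 2 * L' ^ 2 / n :=
    (bessel (fun v i => conj (ph n v i)) (fun i => (ph_bm hK n i).conj) (ortho' hO n) _
      (hκ.mul ((BM.const (b v)).sub hbm))).trans (row4 hK n hn hbm hcm hb hc v hv)
  have h2 : ns (fun l => ∫ w, kd n c v w * gf n b w l ∂sg) ≤ 9 * L ^ 2 * L' ^ 2 / n := by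
    have h3 : ns (fun l => ∫ w, kd n c v w * gf n b w l ∂sg) ≤ (L * ∫ w, ‖kd n c v w‖ ∂sg) ^ 2 := by
      refine ns_int_le (fun w l => gf n b w l) (fun l => gf_bm hK n hbm l) _ hκ L hL ?_
      filter_upwards [hK.2.2.2.2.1] with w hw
      exact lip1 hK hO n hbm hb w hw
    refine h3.trans ?_
    have h4 : 0 ≤ ∫ w, ‖kd n c v w‖ ∂sg := integral_nonneg fun w => norm_nonneg _
    calc (L * ∫ w, ‖kd n c v w‖ ∂sg) ^ 2 ≤ (L * (3 * L' / √n)) ^ 2 := by
          refine pow_le_pow_left₀ (by positivity) ?_ 2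
          exact mul_le_mul_of_nonneg_left (row1 hK n hn hcm hL' hc v hv) hL
      _ = 9 * L ^ 2 * L' ^ 2 / √n ^ 2 := by
          rw [mul_pow, div_pow]; ring
      _ = _ := by rw [Real.sq_sqrt hn0.le]
  calc _ ≤ 2 * (2 * L ^ 2 * L' ^ 2 / n) + 2 * (9 * L ^ 2 * L' ^ 2 / n) := by gcongr
    _ = _ := by ring

theorem lip_two (hK : S_KER) (hO : S_ONB) : S_LIP2 := by
  refine ⟨?_, ?_, ?_, ?_⟩
  · intro b hb
    have hbm := lp_bm hb
    obtain ⟨-, ⟨L, hL, h⟩, -⟩ := hb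
    exact ⟨L ^ 2, sq_nonneg _, fun n v hv => lip1 hK hO n hbm h v hv⟩
  · intro b hb
    have hbm := lp_bm hb
    obtain ⟨-, ⟨L, hL, h⟩, -⟩ := hb
    exact ⟨9 * L ^ 2, by positivity, fun n hn f => lip2 hK hO n hn hbm hL h f⟩
  · intro b c hb hc
    have hcm := lp_bm hc
    obtain ⟨hb1, -, _, B, -, hB⟩ := hb
    obtain ⟨-, ⟨L, hL, h⟩, -⟩ := hc
    exact ⟨9 * B ^ 2 * L ^ 2, by positivity, fun n hn x =>
      lip3 hK hO n hn hb1 (fun v => (hB v).2) hcm hL h x⟩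
  · intro b c hb hc
    have hbm := lp_bm hb
    have hcm := lp_bm hc
    obtain ⟨-, ⟨L, hL, h⟩, -⟩ := hb
    obtain ⟨-, ⟨L', hL', h'⟩, -⟩ := hc
    exact ⟨22 * L ^ 2 * L' ^ 2, by positivity, fun n hn v hv => lip4 hK hO n hn hbm hcm hL hL' h h' v hv⟩

end

end Pool.Agent.P8H85.FM
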