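import Pool.Agent.P8H85.FM.LipB

/-!
Project FM (helper98), package LIP (helper85).
-/

set_option autoImplicit false

open MeasureTheory Complex Filter Topology
open scoped ENNReal NNReal ComplexConjugate

namespace Pool.Agent.P8H85.FM

open Pool.Agent.P8H98.FM

noncomputable section

lemma lp_mul {b c : Om → ℂ} (hb : Lp b) (hc : Lp c) : Lp (fun v => b v * c v) := by
  obtain ⟨hb1, ⟨L, hL, h⟩, b0, B, hb0, hB⟩ := hb
  obtain ⟨hc1, ⟨L', hL', h'⟩, c0, C, hc0, hC⟩ := hc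
  have hB0 : 0 ≤ B := (norm_nonneg _).trans (hB 0).2
  have hC0 : 0 ≤ C := (norm_nonneg _).trans (hC 0).2
  refine ⟨hb1.mul hc1, ⟨B * L' + C * L, by positivity, fun v w hv hw => ?_⟩, b0 * c0, B * C,
    mul_pos hb0 hc0, fun v => ?_⟩
  · have e : b v * c v - b w * c w = b v * (c v - c w) + c w * (b v - b w) := by ring
    rw [e]
    refine (norm_add_le _ _).trans ?_
    rw [norm_mul, norm_mul]
    have h1 := h v w hv hw
    have h2 := h' v w hv hw
    calc ‖b v‖ * ‖c v - c w‖ + ‖c w‖ * ‖b v - b w‖ ≤ B * (L' * √(d2 v w)) + C * (L * √(d2 v w)) :=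
          add_le_add (mul_le_mul (hB v).2 h2 (norm_nonneg _) hB0)
            (mul_le_mul (hC w).2 h1 (norm_nonneg _) hC0)
      _ = _ := by ring
  · rw [norm_mul]
    exact ⟨mul_le_mul (hB v).1 (hC v).1 hc0.le (norm_nonneg _),
      mul_le_mul (hB v).2 (hC v).2 (norm_nonneg _) hB0⟩

lemma lp_conj {b : Om → ℂ} (hb : Lp b) : Lp (fun v => conj (b v)) := by
  obtain ⟨hb1, ⟨L, hL, h⟩, b0, B, hb0, hB⟩ := hb
  refine ⟨(Complex.continuous_conj.measurable).comp hb1, ⟨L, hL, fun v w hv hw => ?_⟩, b0, B, hb0,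
    fun v => ?_⟩
  · rw [← map_sub, Complex.norm_conj]; exact h v w hv hw
  · rw [Complex.norm_conj]; exact hB v

lemma lp_inv {b : Om → ℂ} (hb : Lp b) : Lp (fun v => (b v)⁻¹) := by
  obtain ⟨hb1, ⟨L, hL, h⟩, b0, B, hb0, hB⟩ := hb
  have hne : ∀ v, b v ≠ 0 := fun v h0 => by
    have := (hB v).1
    rw [h0, norm_zero] at this
    linarith
  have hB0 : 0 < B := hb0.trans_le ((hB 0).1.trans (hB 0).2)
  refine ⟨hb1.inv, ⟨L / b0 ^ 2, by positivity, fun v w hv hw => ?_⟩, B⁻¹, b0⁻¹, inv_pos.2 hB0,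
    fun v => ?_⟩
  · have e : (b v)⁻¹ - (b w)⁻¹ = (b w - b v) / (b v * b w) := by
      field_simp [hne v, hne w]
    rw [e, norm_div, norm_mul, norm_sub_rev]
    have h1 : b0 ^ 2 ≤ ‖b v‖ * ‖b w‖ := by
      rw [sq]; exact mul_le_mul (hB v).1 (hB w).1 hb0.le (norm_nonneg _)
    calc ‖b v - b w‖ / (‖b v‖ * ‖b w‖) ≤ (L * √(d2 v w)) / b0 ^ 2 :=
          div_le_div₀ (by positivity) (h v w hv hw) (by positivity) h1
      _ = _ := by ring
  · rw [norm_inv]
    have h2 : 0 < ‖b v‖ := norm_pos_iff.2 (hne v)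
    exact ⟨inv_anti₀ h2 (hB v).2, inv_anti₀ hb0 (hB v).1⟩

/-- the inverse of `T(b)` is bounded -/
lemma inv_bd (hK : S_KER) (hO : S_ONB) {b : Om → ℂ} (hb : Lp b) :
    ∃ C : ℝ, 0 ≤ C ∧ ∀ᶠ n : ℕ in atTop, (TT n b).det ≠ 0 ∧
      ∀ x : Fin n → ℂ, ns ((TT n b)⁻¹.mulVec x) ≤ C * ns x := by
  have hi := lp_inv hb
  have hne : ∀ v, (b v)⁻¹ * b v = 1 := by
    intro v
    obtain ⟨-, -, b0, B, hb0, hB⟩ := hb
    have : b v ≠ 0 := fun h0 => by
      have := (hB v).1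
      rw [h0, norm_zero] at this
      linarith
    exact inv_mul_cancel₀ this
  obtain ⟨him, -, i0, I, hi0, hI⟩ := hi
  have hbm := lp_bm hb
  obtain ⟨-, ⟨L, hL, h⟩, -⟩ := hb
  have hI0 : 0 ≤ I := (norm_nonneg _).trans (hI 0).2
  refine ⟨4 * I ^ 2, by positivity, ?_⟩
  have hev : ∀ᶠ n : ℕ in atTop, 9 * I ^ 2 * L ^ 2 / n ≤ 1 / 4 ∧ 1 ≤ n := by
    have h1 : Tendsto (fun n : ℕ => 9 * I ^ 2 * L ^ 2 / (n : ℝ)) atTop (𝓝 0) :=
      tendsto_const_div_atTop_nhds_zero_nat _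
    filter_upwards [h1.eventually_le_const (show (0 : ℝ) < 1 / 4 by norm_num), eventually_ge_atTop 1]
      with n h2 h3
    exact ⟨h2, h3⟩
  filter_upwards [hev] with n hn
  obtain ⟨hn4, hn1⟩ := hn
  have hone : TT n (fun v => (b v)⁻¹ * b v) = 1 := by
    simp_rw [hne]; exact hO.1 n
  have key : ∀ x : Fin n → ℂ, ns x ≤ 4 * I ^ 2 * ns ((TT n b).mulVec x) := by
    intro x
    have h1 := lip3 hK hO n hn1 him (fun v => (hI v).2) hbm hL h x
    rw [hone] at h1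
    have h2 := op_TT hK hO n him (fun v => (hI v).2) ((TT n b).mulVec x)
    have e : x = fun i => (TT n (fun v => (b v)⁻¹)).mulVec ((TT n b).mulVec x) i +
        ((1 - TT n (fun v => (b v)⁻¹) * TT n b).mulVec x) i := by
      funext i
      rw [Matrix.mulVec_mulVec, Matrix.sub_mulVec, Matrix.one_mulVec, Pi.sub_apply]
      ring
    have h3 : ns x ≤ 2 * ns ((TT n (fun v => (b v)⁻¹)).mulVec ((TT n b).mulVec x)) +
        2 * ns ((1 - TT n (fun v => (b v)⁻¹) * TT n b).mulVec x) := by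
      conv_lhs => rw [e]
      exact ns_add_le _ _
    have h4 : 9 * I ^ 2 * L ^ 2 / n * ns x ≤ 1 / 4 * ns x :=
      mul_le_mul_of_nonneg_right hn4 (ns_nonneg x)
    linarith
  have hdet : (TT n b).det ≠ 0 := by
    intro h0
    obtain ⟨x, hx, hx0⟩ := Matrix.exists_mulVec_eq_zero_iff.2 h0
    have h1 := key x
    rw [hx0] at h1
    have h2 : ns (0 : Fin n → ℂ) = 0 := by simp [ns]
    rw [h2, mul_zero] at h1
    exact hx (ns_zero (le_antisymm h1 (ns_nonneg x)))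
  refine ⟨hdet, fun x => ?_⟩
  have h1 := key ((TT n b)⁻¹.mulVec x)
  rwa [Matrix.mulVec_mulVec, Matrix.mul_nonsing_inv _ (isUnit_iff_ne_zero.2 hdet), Matrix.one_mulVec] at h1

lemma TT_conj (n : ℕ) (b : Om → ℂ) : TT n (fun v => conj (b v)) = (TT n b).conjTranspose := by
  ext i j
  rw [Matrix.conjTranspose_apply]
  unfold TT
  simp only [Matrix.of_apply]
  rw [Complex.star_def, ← integral_conj]
  refine integral_congr_ae (ae_of_all _ fun v => ?_)
  simp only [map_mul, Complex.conj_conj]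
  ring

/-- the transposed action of the inverse -/
lemma vec_inv (n : ℕ) (b : Om → ℂ) (x : Fin n → ℂ) (l : Fin n) :
    ∑ i, x i * (TT n b)⁻¹ i l = conj (((TT n (fun v => conj (b v)))⁻¹.mulVec fun i => conj (x i)) l) := by
  rw [TT_conj, ← Matrix.conjTranspose_nonsing_inv]
  unfold Matrix.mulVec dotProduct
  rw [map_sum]
  refine Finset.sum_congr rfl fun i _ => ?_
  beta_reduce
  rw [map_mul, Matrix.conjTranspose_apply, Complex.star_def, Complex.conj_conj, Complex.conj_conj, mul_comm]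

lemma yf_eq {n : ℕ} {b : Om → ℂ} (hd : (TT n b).det ≠ 0) (v : Om) (l : Fin n) :
    yf n b v l = ∑ i, gf n b v i * (TT n b)⁻¹ i l := by
  unfold yf gf
  have e1 : ∑ i, (b v * conj (ph n v i) - ∑ k, conj (ph n v k) * TT n b k i) * (TT n b)⁻¹ i l =
      (∑ i, b v * conj (ph n v i) * (TT n b)⁻¹ i l) -
        ∑ k, conj (ph n v k) * (TT n b * (TT n b)⁻¹) k l := by
    simp_rw [sub_mul]
    rw [Finset.sum_sub_distrib]
    congr 1
    simp_rw [Finset.sum_mul, Matrix.mul_apply, Finset.mul_sum]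
    rw [Finset.sum_comm]
    exact Finset.sum_congr rfl fun i _ => Finset.sum_congr rfl fun k _ => by ring
  rw [e1, Matrix.mul_nonsing_inv _ (isUnit_iff_ne_zero.2 hd)]
  congr 1
  simp [Matrix.one_apply]

theorem lip (hK : S_KER) (hO : S_ONB) : S_LIP := by
  refine ⟨fun b c hb hc => lp_mul hb hc, fun b hb => lp_conj hb, fun b hb => ?_⟩
  obtain ⟨C1, hC1, h1⟩ := inv_bd hK hO hb
  obtain ⟨C2, hC2, h2⟩ := inv_bd hK hO (lp_conj hb)
  obtain ⟨C3, hC3, h3⟩ := (lip_two hK hO).1 b hb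
  refine ⟨max C1 (C2 * C3), ?_⟩
  filter_upwards [h1, h2] with n hn1 hn2
  refine ⟨hn1.1, fun x => (hn1.2 x).trans (mul_le_mul_of_nonneg_right (le_max_left _ _) (ns_nonneg x)),
    fun v hv => ?_⟩
  have e : yf n b v = fun l => conj (((TT n (fun v => conj (b v)))⁻¹.mulVec fun i => conj (gf n b v i)) l) := by
    funext l
    rw [yf_eq hn1.1, vec_inv]
  rw [e, ns_conj]
  refine (hn2.2 _).trans ?_
  rw [ns_conj]
  exact (mul_le_mul_of_nonneg_left (h3 n v hv) hC2).trans (le_max_right _ _)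

end

end Pool.Agent.P8H85.FM
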