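import Pool.Agent.P8H85.FM.Base

/-!
Project FM (helper98), package TRC (helper85).
-/

set_option autoImplicit false

open MeasureTheory Complex Filter Topology
open scoped ENNReal NNReal ComplexConjugate

namespace Pool.Agent.P8H85.FM

open Pool.Agent.P8H98.FM

noncomputable section

lemma lp_bm {b : Om → ℂ} (hb : Lp b) : BM b := by
  obtain ⟨h1, -, c, C, -, h2⟩ := hb
  exact ⟨h1, C, fun v => (h2 v).2⟩

lemma int4 {f g h k : Om → ℂ} (hf : Integrable f sg) (hg : Integrable g sg) (hh : Integrable h sg)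
    (hk : Integrable k sg) : ∫ v, (f v - g v - h v + k v) ∂sg =
      (∫ v, f v ∂sg) - (∫ v, g v ∂sg) - (∫ v, h v ∂sg) + ∫ v, k v ∂sg := by
  have h1 : Integrable (fun v => f v - g v) sg := hf.sub hg
  have h2 : Integrable (fun v => f v - g v - h v) sg := h1.sub hh
  rw [integral_add h2 hk, integral_sub h1 hh, integral_sub hf hg]

lemma xf_eq (n : ℕ) (a : Om → ℂ) (v : Om) (i : Fin n) :
    xf n a v i = (∑ k, (TT n a)⁻¹ i k * (a v * ph n v k)) - ph n v i := by
  unfold xf
  rw [Matrix.mulVec]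
  rfl

/-- the product of the two fields -/
lemma xf_yf (n : ℕ) (a b : Om → ℂ) (v : Om) (i l : Fin n) :
    xf n a v i * yf n b v l =
      (∑ k, ∑ m, (TT n a)⁻¹ i k * (TT n b)⁻¹ m l * ((a v * b v) * (ph n v k * conj (ph n v m)))) -
      (∑ k, (TT n a)⁻¹ i k * (a v * (ph n v k * conj (ph n v l)))) -
      (∑ m, (TT n b)⁻¹ m l * (b v * (ph n v i * conj (ph n v m)))) + 1 * (ph n v i * conj (ph n v l)) := by
  rw [xf_eq]
  unfold yf
  rw [sub_mul, mul_sub, mul_sub, Finset.sum_mul_sum, Finset.sum_mul, Finset.mul_sum]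
  have e1 : ∀ k m, (TT n a)⁻¹ i k * (a v * ph n v k) * (b v * conj (ph n v m) * (TT n b)⁻¹ m l) =
      (TT n a)⁻¹ i k * (TT n b)⁻¹ m l * ((a v * b v) * (ph n v k * conj (ph n v m))) := by
    intro k m; ring
  have e2 : ∀ k, (TT n a)⁻¹ i k * (a v * ph n v k) * conj (ph n v l) =
      (TT n a)⁻¹ i k * (a v * (ph n v k * conj (ph n v l))) := by
    intro k; ring
  have e3 : ∀ m, ph n v i * (b v * conj (ph n v m) * (TT n b)⁻¹ m l) =
      (TT n b)⁻¹ m l * (b v * (ph n v i * conj (ph n v m))) := by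
    intro m; ring
  simp_rw [e1, e2, e3]
  ring

theorem trc (hK : S_KER) (hO : S_ONB) : S_TRC := by
  intro n a b hma hia hb hda hdb
  have hbm := lp_bm hb
  have hab : Integrable (fun v => a v * b v) sg := by
    obtain ⟨h2, C, h3⟩ := hbm
    exact hia.mul_bdd h2.aestronglyMeasurable (ae_of_all _ h3)
  have hib : Integrable b sg := hbm.int sg
  have hi1 : Integrable (fun _ : Om => (1 : ℂ)) sg := integrable_const _
  have uA : (TT n a)⁻¹ * TT n a = 1 := Matrix.nonsing_inv_mul _ (isUnit_iff_ne_zero.2 hda)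
  have uB : TT n b * (TT n b)⁻¹ = 1 := Matrix.mul_nonsing_inv _ (isUnit_iff_ne_zero.2 hdb)
  have key : ∀ i l : Fin n, ((TT n a)⁻¹ * TT n (fun v => a v * b v) * (TT n b)⁻¹ - 1) i l =
      ∫ v, xf n a v i * yf n b v l ∂sg := by
    intro i l
    simp_rw [xf_yf]
    have j1 : ∀ k m, Integrable (fun v => (TT n a)⁻¹ i k * (TT n b)⁻¹ m l *
        ((a v * b v) * (ph n v k * conj (ph n v m)))) sg := fun k m => (TT_int hK n hab k m).const_mul _
    have j2 : ∀ k, Integrable (fun v => (TT n a)⁻¹ i k * (a v * (ph n v k * conj (ph n v l)))) sg :=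
      fun k => (TT_int hK n hia k l).const_mul _
    have j3 : ∀ m, Integrable (fun v => (TT n b)⁻¹ m l * (b v * (ph n v i * conj (ph n v m)))) sg :=
      fun m => (TT_int hK n hib i m).const_mul _
    have j4 : Integrable (fun v => 1 * (ph n v i * conj (ph n v l))) sg := TT_int hK n hi1 i l
    have s1 : Integrable (fun v => ∑ k, ∑ m, (TT n a)⁻¹ i k * (TT n b)⁻¹ m l *
        ((a v * b v) * (ph n v k * conj (ph n v m)))) sg :=
      integrable_finsetSum _ fun k _ => integrable_finsetSum _ fun m _ => j1 k m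
    have s2 : Integrable (fun v => ∑ k, (TT n a)⁻¹ i k * (a v * (ph n v k * conj (ph n v l)))) sg :=
      integrable_finsetSum _ fun k _ => j2 k
    have s3 : Integrable (fun v => ∑ m, (TT n b)⁻¹ m l * (b v * (ph n v i * conj (ph n v m)))) sg :=
      integrable_finsetSum _ fun k _ => j3 k
    rw [int4 s1 s2 s3 j4, integral_finsetSum _ fun k _ => integrable_finsetSum _ fun m _ => j1 k m,
      integral_finsetSum _ fun k _ => j2 k, integral_finsetSum _ fun k _ => j3 k]
    have t1 : ∀ k, ∫ v, ∑ m, (TT n a)⁻¹ i k * (TT n b)⁻¹ m l *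
        ((a v * b v) * (ph n v k * conj (ph n v m))) ∂sg =
        ∑ m, (TT n a)⁻¹ i k * (TT n b)⁻¹ m l * TT n (fun v => a v * b v) k m := by
      intro k
      rw [integral_finsetSum _ fun m _ => j1 k m]
      refine Finset.sum_congr rfl fun m _ => ?_
      rw [integral_const_mul]
      rfl
    have t2 : ∀ k, ∫ v, (TT n a)⁻¹ i k * (a v * (ph n v k * conj (ph n v l))) ∂sg =
        (TT n a)⁻¹ i k * TT n a k l := by
      intro k; rw [integral_const_mul]; rfl
    have t3 : ∀ m, ∫ v, (TT n b)⁻¹ m l * (b v * (ph n v i * conj (ph n v m))) ∂sg =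
        (TT n b)⁻¹ m l * TT n b i m := by
      intro k; rw [integral_const_mul]; rfl
    have t4 : ∫ v, 1 * (ph n v i * conj (ph n v l)) ∂sg = (1 : Matrix (Fin n) (Fin n) ℂ) i l := by
      rw [← hO.1 n]; rfl
    simp_rw [t1, t2, t3]
    rw [t4]
    have r2 : ∑ k, (TT n a)⁻¹ i k * TT n a k l = (1 : Matrix (Fin n) (Fin n) ℂ) i l := by
      rw [← uA, Matrix.mul_apply]
    have r3 : ∑ m, (TT n b)⁻¹ m l * TT n b i m = (1 : Matrix (Fin n) (Fin n) ℂ) i l := by
      rw [← uB, Matrix.mul_apply]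
      exact Finset.sum_congr rfl fun m _ => mul_comm _ _
    have r1 : ∑ k, ∑ m, (TT n a)⁻¹ i k * (TT n b)⁻¹ m l * TT n (fun v => a v * b v) k m =
        ((TT n a)⁻¹ * TT n (fun v => a v * b v) * (TT n b)⁻¹) i l := by
      rw [Matrix.mul_apply]
      simp_rw [Matrix.mul_apply]
      rw [Finset.sum_comm]
      refine Finset.sum_congr rfl fun m _ => ?_
      rw [Finset.sum_mul]
      exact Finset.sum_congr rfl fun k _ => by ring
    rw [r1, r2, r3, Matrix.sub_apply]
    ring
  refine ⟨key, ?_, ?_⟩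
  · intro i l
    simp_rw [xf_eq]
    have j2 : ∀ k, Integrable (fun v => (TT n a)⁻¹ i k * (a v * (ph n v k * conj (ph n v l)))) sg :=
      fun k => (TT_int hK n hia k l).const_mul _
    have j4 : Integrable (fun v => 1 * (ph n v i * conj (ph n v l))) sg := TT_int hK n hi1 i l
    have e : ∀ v, (∑ k, (TT n a)⁻¹ i k * (a v * ph n v k) - ph n v i) * conj (ph n v l) =
        (∑ k, (TT n a)⁻¹ i k * (a v * (ph n v k * conj (ph n v l)))) - 1 * (ph n v i * conj (ph n v l)) := by
      intro v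
      rw [sub_mul, Finset.sum_mul, one_mul]
      congr 1
      exact Finset.sum_congr rfl fun k _ => by ring
    simp_rw [e]
    rw [integral_sub (integrable_finsetSum _ fun k _ => j2 k) j4, integral_finsetSum _ fun k _ => j2 k]
    have t2 : ∀ k, ∫ v, (TT n a)⁻¹ i k * (a v * (ph n v k * conj (ph n v l))) ∂sg =
        (TT n a)⁻¹ i k * TT n a k l := by
      intro k; rw [integral_const_mul]; rfl
    have t4 : ∫ v, 1 * (ph n v i * conj (ph n v l)) ∂sg = (1 : Matrix (Fin n) (Fin n) ℂ) i l := by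
      rw [← hO.1 n]; rfl
    simp_rw [t2]
    rw [t4]
    have r2 : ∑ k, (TT n a)⁻¹ i k * TT n a k l = (1 : Matrix (Fin n) (Fin n) ℂ) i l := by
      rw [← uA, Matrix.mul_apply]
    rw [r2, sub_self]
  · have hint : ∀ l : Fin n, Integrable (fun v => xf n a v l * yf n b v l) sg := by
      intro l
      simp_rw [xf_yf]
      refine (((integrable_finsetSum _ fun k _ => integrable_finsetSum _ fun m _ =>
        (TT_int hK n hab k m).const_mul _).sub
        (integrable_finsetSum _ fun k _ => (TT_int hK n hia k l).const_mul _)).sub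
        (integrable_finsetSum _ fun m _ => (TT_int hK n hib l m).const_mul _)).add
        (TT_int hK n hi1 l l)
    rw [integral_finsetSum _ fun l _ => hint l]
    have h1 : ∀ l, ∫ v, xf n a v l * yf n b v l ∂sg =
        ((TT n a)⁻¹ * TT n (fun v => a v * b v) * (TT n b)⁻¹ - 1) l l := fun l => (key l l).symm
    simp_rw [h1]
    have h2 : ∑ l, ((TT n a)⁻¹ * TT n (fun v => a v * b v) * (TT n b)⁻¹ - 1) l l =
        Matrix.trace ((TT n a)⁻¹ * TT n (fun v => a v * b v) * (TT n b)⁻¹ - 1) := rfl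
    rw [h2, Matrix.trace_sub, Matrix.trace_one, Fintype.card_fin]
    rfl

end

end Pool.Agent.P8H85.FM
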